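import Pool.Agent.H491W.Torus

/-!
# Maximal 1-systems which do not fill the surface

The surface is the torus `ℂ / (ℤ + ℤ i)` without the points `0` and `1/2`. A 1-system which contains
an essential separating curve does not fill, and there are such 1-systems which are maximal with
respect to inclusion: a curve meets a separating curve in an even number of points, so all members
of the 1-system are disjoint from it, and the complementary component next to it contains a parallel
copy of it.
-/

set_option autoImplicit false

namespace Pool.Agent.Results.MP_14cec7_gt.SeparatingCurve

open Pool.Agent.H491W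

/-- There is a class `c` of essential simple closed curves on the twice punctured torus which belongs
to a 1-system that is maximal with respect to inclusion. All members of a 1-system `Γ` which contains
`c` have intersection number `0` with `c`, and `Γ` does not fill: whenever the members of `Γ` are
realised in pairwise minimal position by a locally finite family of curves, some component of the
complement is neither a disk nor a once punctured disk. -/
theorem result :
    ∃ c : Cls,
      (∃ Γ : Set Cls, c ∈ Γ ∧ IsOneSystem Γ ∧
        ∀ Γ' : Set Cls, IsOneSystem Γ' → Γ ⊆ Γ' → Γ' = Γ) ∧
      ∀ Γ : Set Cls, IsOneSystem Γ → c ∈ Γ →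
        (∀ γ ∈ Γ, ι γ c = 0) ∧
        ∀ r : Cls → Curve, IsMinimalPosition Γ r → IsLocallyFinite Γ r → ¬ Fills Γ r := by
  refine ⟨c₀, exists_maximal, fun Γ h1 h0 => ?_⟩
  have h3 : ∀ γ ∈ Γ, ι γ c₀ = 0 := fun γ hγ => ι_eq_zero (h1 γ hγ c₀ h0)
  exact ⟨h3, fun r hr hf => bad_component h0 h3 hr hf⟩

end Pool.Agent.Results.MP_14cec7_gt.SeparatingCurve
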